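import Mathlib

/-!
# Project CL (helper42), part MA, arithmetic lemmas (helper59)
-/

set_option autoImplicit false
set_option linter.all false

open Finset

namespace Pool.Agent.L0h59.CL

/-- eventually -/
theorem ev (k : ℕ) (c : ℝ) : ∃ N0 : ℕ, ∀ N : ℕ, N0 ≤ N → c ≤ Real.log N ∧ Real.log N ^ k < N ∧ 1 ≤ N := by
  have h1 : ∀ᶠ x : ℝ in Filter.atTop, ‖Real.log x ^ k‖ ≤ (1 / 2 : ℝ) * ‖id x‖ :=
    (Real.isLittleO_pow_log_id_atTop (n := k)).bound (by norm_num)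
  have h2 : ∀ᶠ x : ℝ in Filter.atTop, c ≤ Real.log x :=
    Real.tendsto_log_atTop.eventually_ge_atTop c
  have h3 : ∀ᶠ x : ℝ in Filter.atTop, c ≤ Real.log x ∧ Real.log x ^ k < x ∧ 1 ≤ x := by
    filter_upwards [h1, h2, Filter.eventually_ge_atTop (1 : ℝ)] with x a b d
    refine ⟨b, ?_, d⟩
    rw [id, Real.norm_eq_abs, Real.norm_eq_abs, abs_of_pos (by linarith : (0 : ℝ) < x)] at a
    have := le_abs_self (Real.log x ^ k)
    linarith
  obtain ⟨x0, hx0⟩ := Filter.eventually_atTop.1 h3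
  refine ⟨⌈x0⌉₊, fun N hN => ?_⟩
  obtain ⟨a, b, d⟩ := hx0 N ((Nat.le_ceil x0).trans (by exact_mod_cast hN))
  exact ⟨a, b, by exact_mod_cast d⟩

theorem harm (N : ℕ) : ∑ D ∈ Icc 1 N, (1 : ℝ) / D ≤ 1 + Real.log N := by
  have h := harmonic_le_one_add_log N
  rw [harmonic_eq_sum_Icc] at h
  push_cast at h
  simpa [one_div] using h

theorem sum_mult (N s : ℕ) (hs : 1 ≤ s) :
    ∑ D ∈ (Icc 1 N).filter (fun D => s ∣ D), (1 : ℝ) / D ≤ (1 + Real.log N) / s := by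
  have hs0 : (0 : ℝ) < s := by exact_mod_cast hs
  have h1 : (Icc 1 N).filter (fun D => s ∣ D) ⊆ (Icc 1 N).image (fun j => s * j) := by
    intro D hD
    rw [mem_filter, mem_Icc] at hD
    obtain ⟨⟨h1, h2⟩, j, rfl⟩ := hD
    rw [mem_image]
    refine ⟨j, mem_Icc.2 ⟨?_, ?_⟩, rfl⟩
    · by_contra hj
      have : j = 0 := by omega
      rw [this] at h1
      omega
    · exact (Nat.le_mul_of_pos_left j (by omega)).trans h2
  calc _ ≤ ∑ D ∈ (Icc 1 N).image (fun j => s * j), (1 : ℝ) / D :=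
        sum_le_sum_of_subset_of_nonneg h1 fun _ _ _ => by positivity
    _ = ∑ j ∈ Icc 1 N, (1 : ℝ) / ((s * j : ℕ) : ℝ) := by
        rw [sum_image]
        intro a _ b _ hab
        exact Nat.eq_of_mul_eq_mul_left (by omega) hab
    _ = (∑ j ∈ Icc 1 N, (1 : ℝ) / j) / s := by
        rw [sum_div]
        refine sum_congr rfl fun j _ => ?_
        push_cast
        rw [div_div, mul_comm]
    _ ≤ _ := div_le_div_of_nonneg_right (harm N) hs0.le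

/-- the squarefree part -/
theorem rad {m D : ℕ} (hm : m ≠ 0) (hD : Squarefree D) (h : m ∣ D ^ 2) :
    (∏ p ∈ m.primeFactors, p) ∣ D ∧ m ≤ (∏ p ∈ m.primeFactors, p) ^ 2 := by
  obtain ⟨s, hs⟩ : ∃ s, s = ∏ p ∈ m.primeFactors, p := ⟨_, rfl⟩
  rw [← hs]
  have hD0 : D ≠ 0 := hD.ne_zero
  have h1 : s ∣ D := by
    rw [hs]
    refine Finset.prod_primes_dvd D (fun p hp => (Nat.prime_of_mem_primeFactors hp).prime) ?_
    intro p hp
    exact (Nat.prime_of_mem_primeFactors hp).dvd_of_dvd_pow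
      ((Nat.dvd_of_mem_primeFactors hp).trans h)
  refine ⟨h1, ?_⟩
  obtain ⟨t, ht⟩ := h1
  have h2 : Nat.Coprime s t := by
    rw [ht] at hD
    exact (Nat.squarefree_mul_iff.1 hD).1
  have hs0 : s ≠ 0 := by
    rintro rfl
    rw [zero_mul] at ht
    exact hD0 ht
  have h3 : Nat.Coprime m t := by
    refine Nat.coprime_of_dvd fun p hp h4 h5 => ?_
    have h6 : p ∣ s := by
      rw [hs]
      exact Finset.dvd_prod_of_mem _ (Nat.mem_primeFactors.2 ⟨hp, h4, hm⟩)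
    have h7 := Nat.dvd_gcd h6 h5
    rw [h2] at h7
    exact hp.one_lt.ne' (Nat.dvd_one.1 h7)
  have h8 : m ∣ s ^ 2 := by
    rw [ht, mul_pow] at h
    exact (Nat.Coprime.pow_right 2 h3).dvd_of_dvd_mul_right h
  exact Nat.le_of_dvd (pow_pos (Nat.pos_of_ne_zero hs0) 2) h8

/-- the radical of the cofactor -/
def sr (q0 c : ℕ) : ℕ := ∏ p ∈ (q0 / q0.gcd c).primeFactors, p

theorem sr_pos (q0 c : ℕ) : 1 ≤ sr q0 c := by
  unfold sr
  exact Finset.prod_pos fun p hp => (Nat.prime_of_mem_primeFactors hp).pos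

theorem sr_spec {q0 c D : ℕ} (hq0 : 1 ≤ q0) (hc : 1 ≤ c) (hD : Squarefree D) (h : q0 ∣ c * D ^ 2) :
    sr q0 c ∣ D ∧ q0 ≤ c * sr q0 c ^ 2 := by
  obtain ⟨g, hg⟩ : ∃ g, g = q0.gcd c := ⟨_, rfl⟩
  have hg0 : 0 < g := by rw [hg]; exact Nat.gcd_pos_of_pos_left _ hq0
  have h1 : q0 / g ∣ D ^ 2 := by
    have h2 : q0 / g ∣ c / g * D ^ 2 := by
      obtain ⟨x, hx⟩ : g ∣ q0 := by rw [hg]; exact Nat.gcd_dvd_left _ _
      obtain ⟨y, hy⟩ : g ∣ c := by rw [hg]; exact Nat.gcd_dvd_right _ _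
      rw [hx, hy, Nat.mul_div_cancel_left _ hg0, Nat.mul_div_cancel_left _ hg0]
      rw [hx, hy, mul_assoc] at h
      exact Nat.dvd_of_mul_dvd_mul_left hg0 h
    have h3 : Nat.Coprime (q0 / g) (c / g) := by
      rw [hg]
      exact Nat.coprime_div_gcd_div_gcd (by rw [← hg]; exact hg0)
    exact h3.dvd_of_dvd_mul_left h2
  have h4 : q0 / g * g = q0 := Nat.div_mul_cancel (by rw [hg]; exact Nat.gcd_dvd_left _ _)
  have hm : q0 / g ≠ 0 := by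
    intro h5
    rw [h5, zero_mul] at h4
    omega
  obtain ⟨h5, h6⟩ := rad hm hD h1
  have h7 : sr q0 c = ∏ p ∈ (q0 / g).primeFactors, p := by rw [hg]; rfl
  rw [← h7] at h5 h6
  refine ⟨h5, ?_⟩
  have h8 : g ≤ c := by rw [hg]; exact Nat.gcd_le_right _ hc
  calc q0 = q0 / g * g := h4.symm
    _ ≤ sr q0 c ^ 2 * c := Nat.mul_le_mul h6 h8
    _ = _ := mul_comm _ _

theorem le_of_sq {x n : ℝ} (hn : 0 ≤ n) (h : x ^ 2 ≤ n ^ 2) : x ≤ n :=
  (abs_le_of_sq_le_sq' h hn).2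

theorem facts {N T D K' E : ℕ} {l : ℝ} (hl : 1 ≤ l) (hD4 : (D : ℝ) ^ 4 ≤ N)
    (hT1 : (N : ℝ) ≤ (T : ℝ) ^ 2 * l ^ K') (hH : l ^ (2 * (4 * E + K')) ≤ N) :
    (l ^ E) ^ 2 * D ≤ T := by
  have hl0 : (0 : ℝ) < l := by linarith
  have h1 : l ^ (4 * E + K') * (D : ℝ) ^ 2 ≤ N := by
    apply le_of_sq (Nat.cast_nonneg N)
    calc (l ^ (4 * E + K') * (D : ℝ) ^ 2) ^ 2 = l ^ (2 * (4 * E + K')) * (D : ℝ) ^ 4 := by ring
      _ ≤ (N : ℝ) * N := mul_le_mul hH hD4 (by positivity) (Nat.cast_nonneg N)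
      _ = (N : ℝ) ^ 2 := by ring
  have h2 : ((l ^ E) ^ 2 * D) ^ 2 * l ^ K' ≤ (T : ℝ) ^ 2 * l ^ K' := by
    calc ((l ^ E) ^ 2 * D) ^ 2 * l ^ K' = l ^ (4 * E + K') * (D : ℝ) ^ 2 := by ring
      _ ≤ _ := h1.trans hT1
  exact le_of_sq (Nat.cast_nonneg T) (le_of_mul_le_mul_right h2 (by positivity))

end Pool.Agent.L0h59.CL
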